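import Pool.Agent.H74.TQ.Stmts

/-!
# Two queries: few bad blocks (module HALF)
-/

set_option autoImplicit false

namespace Pool.TQ

open TMLib Polynomial

open Classical in
theorem half : S_HALF := by
  intro hP hISO hSAMP hBLOCK hLEXM hLtb S P n Φ φ hcard
  set a := P.a n with ha
  set g := P.g n with hg
  set V : Finset (List Bool) := (bits a).filter fun κ => Alive S a Φ κ with hV
  set W : Finset (List Bool) := (bits a).filter fun κ => Alive S a (Φ ++ [φ]) κ with hW
  have hWV : W ⊆ V := by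
    intro κ hκ
    rw [hW, Finset.mem_filter] at hκ
    rw [hV, Finset.mem_filter]
    exact ⟨hκ.1, hκ.2.1, fun ψ hψ => hκ.2.2 ψ (List.mem_append_left _ hψ)⟩
  have hVb : V ⊆ bits a := Finset.filter_subset _ _
  have h1 := hISO hP a V W hWV hVb hcard
  set T : Finset (List Bool) := (bits (hbits a)).filter fun h => ∃ k ≤ a + 2, ∃ κ ∈ W,
      (hval a h κ).take k = List.replicate k false ∧
      ∀ κ' ∈ V, (hval a h κ').take k = List.replicate k false → κ' = κ with hT
  have h2 : (bits (hbits a)).filter (fun h => h ∈ T) = T := by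
    ext h
    rw [Finset.mem_filter]
    exact ⟨fun h => h.2, fun h => ⟨(Finset.mem_filter.1 h).1, h⟩⟩
  have h3 := hBLOCK a g T (by rw [h2]; exact h1)
  have hsub : ((bits (P.ell n)).filter fun x => BadBlock S a g Φ φ x) ⊆
      (bits (g * hbits a)).filter fun x => ∀ h ∈ cut g (hbits a) x, h ∉ T := by
    intro x hx
    rw [Finset.mem_filter] at hx ⊢
    refine ⟨hx.1, fun h hh hhT => ?_⟩
    rw [hT, Finset.mem_filter] at hhT
    obtain ⟨-, k, hk, κ, hκ, hz, huniq⟩ := hhT
    have hκW := (Finset.mem_filter.1 hκ).2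
    have hκV := (Finset.mem_filter.1 (hWV hκ)).2
    have hs : samp S a Φ h = κ := by
      refine hSAMP hLEXM hLtb S a k Φ h κ hk hκV hz fun κ' hκ' hz' => ?_
      refine huniq κ' ?_ hz'
      rw [hV, Finset.mem_filter]
      exact ⟨(mem_bits _ _).2 hκ'.1, hκ'⟩
    have hb := hx.2 h hh
    rw [hs, hκW.2 φ (List.mem_append_right _ (List.mem_singleton.2 rfl))] at hb
    exact absurd hb (by simp)
  have h4 := Finset.card_le_card hsub
  have h5 := P.hsg n
  have e : P.ell n = g * hbits a := rfl
  rw [e] at h4 ⊢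
  set A := ((bits (g * hbits a)).filter fun x => BadBlock S a g Φ φ x).card with hA
  set A' := ((bits (g * hbits a)).filter fun x => ∀ h ∈ cut g (hbits a) x, h ∉ T).card with hA'
  have h6 : P.s n * A * 16 ^ g < 2 ^ (g * hbits a) * 16 ^ g := by
    calc P.s n * A * 16 ^ g ≤ P.s n * A' * 16 ^ g := by gcongr
      _ = P.s n * (A' * 16 ^ g) := by ring
      _ ≤ P.s n * (15 ^ g * 2 ^ (g * hbits a)) := Nat.mul_le_mul_left _ h3
      _ = (P.s n * 15 ^ g) * 2 ^ (g * hbits a) := by ring
      _ < 16 ^ g * 2 ^ (g * hbits a) := Nat.mul_lt_mul_of_pos_right h5 (by positivity)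
      _ = _ := by ring
  exact Nat.lt_of_mul_lt_mul_right h6

end Pool.TQ
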