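import Pool.Agent.H74.TQ.Stmts

/-!
# Two queries: self-reduction (module RHO)
-/

set_option autoImplicit false

namespace Pool.TQ

open TMLib Polynomial

namespace RHO

lemma holds_unit (v : ℕ → Bool) (i : ℕ) (b : Bool) :
    Cl.holds v ((i, b), (i, b), (i, b)) ↔ v i = b := by
  simp [Cl.holds]

lemma sat_rho (φ : Form) (π : List Bool) : Sat (rho (φ, π)) ↔
    ∃ v : ℕ → Bool, (∀ c ∈ φ, Cl.holds v c) ∧ ∀ i < π.length, v i = π.getD i false := by
  unfold Sat rho
  constructor
  · rintro ⟨v, hv⟩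
    refine ⟨v, fun c hc => hv c (List.mem_append_left _ hc), fun i hi => ?_⟩
    rw [← holds_unit v i (π.getD i false)]
    refine hv _ (List.mem_append_right _ ?_)
    rw [List.mem_map]
    exact ⟨i, List.mem_range.2 hi, rfl⟩
  · rintro ⟨v, hv1, hv2⟩
    refine ⟨v, fun c hc => ?_⟩
    rcases List.mem_append.1 hc with h | h
    · exact hv1 c h
    · rw [List.mem_map] at h
      obtain ⟨i, hi, rfl⟩ := h
      rw [holds_unit]
      exact hv2 i (List.mem_range.1 hi)

lemma sat_snoc (φ : Form) (π : List Bool) (b : Bool) : Sat (rho (φ, π ++ [b])) ↔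
    ∃ v : ℕ → Bool, ((∀ c ∈ φ, Cl.holds v c) ∧ ∀ i < π.length, v i = π.getD i false) ∧
      v π.length = b := by
  rw [sat_rho]
  constructor
  · rintro ⟨v, hv1, hv2⟩
    refine ⟨v, ⟨hv1, fun i hi => ?_⟩, ?_⟩
    · have h := hv2 i (by simp; omega)
      rw [h, List.getD_eq_getElem?_getD, List.getD_eq_getElem?_getD,
        List.getElem?_append_left hi]
    · have h := hv2 π.length (by simp)
      rw [h]
      simp
  · rintro ⟨v, ⟨hv1, hv2⟩, hv3⟩
    refine ⟨v, hv1, fun i hi => ?_⟩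
    rw [List.length_append, List.length_singleton] at hi
    rcases Nat.lt_succ_iff_lt_or_eq.1 hi with h | h
    · rw [hv2 i h, List.getD_eq_getElem?_getD, List.getD_eq_getElem?_getD,
        List.getElem?_append_left h]
    · subst h
      rw [hv3]
      simp

lemma idx_lt {φ : Form} {c : Cl} (hc : c ∈ φ) :
    c.1.1 < sz φ ∧ c.2.1.1 < sz φ ∧ c.2.2.1 < sz φ := by
  have h := sz_le_of_mem hc
  obtain ⟨⟨a, ab⟩, ⟨b, bb⟩, ⟨d, db⟩⟩ := c
  simp only [sz_pair, sz_nat] at h
  refine ⟨?_, ?_, ?_⟩ <;> simp only <;> omega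

lemma chk_iff (φ : Form) (π : List Bool) :
    chk (φ, π) = true ↔ ∀ c ∈ φ, Cl.holds (fun i => π.getD i false) c := by
  unfold chk
  rw [List.all_eq_true]
  constructor
  · intro h c hc
    have := h c hc
    simp only [Bool.or_eq_true, beq_iff_eq] at this
    unfold Cl.holds
    tauto
  · intro h c hc
    have := h c hc
    unfold Cl.holds at this
    simp only [Bool.or_eq_true, beq_iff_eq]
    tauto

lemma leaf (φ : Form) (π : List Bool) (h : sz φ ≤ π.length) :
    Sat (rho (φ, π)) ↔ chk (φ, π) = true := by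
  rw [sat_rho, chk_iff]
  constructor
  · rintro ⟨v, hv1, hv2⟩ c hc
    obtain ⟨h1, h2, h3⟩ := idx_lt hc
    have h4 := hv1 c hc
    unfold Cl.holds at h4 ⊢
    rw [hv2 _ (h1.trans_le h), hv2 _ (h2.trans_le h), hv2 _ (h3.trans_le h)] at h4
    exact h4
  · intro h4
    exact ⟨_, h4, fun i _ => rfl⟩

lemma ptime_rho : PTime rho := by
  unfold rho
  fun_prop

lemma ptime_chk : PTime chk := by
  have h : PTime (fun p : Form × List Bool => p.1.all fun cl =>
      (decide (p.2.getD cl.1.1 false = cl.1.2) || decide (p.2.getD cl.2.1.1 false = cl.2.1.2)) ||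
        decide (p.2.getD cl.2.2.1 false = cl.2.2.2)) := by
    fun_prop
  refine h.congr fun p => ?_
  unfold chk
  congr 1

end RHO

open RHO in
theorem rho' : S_RHO where
  ptime := ptime_rho
  ptimeChk := ptime_chk
  nil φ := by simp [rho]
  split φ π := by
    rw [sat_snoc, sat_snoc, sat_rho]
    constructor
    · rintro ⟨v, hv⟩
      cases hb : v π.length
      · exact Or.inl ⟨v, hv, hb⟩
      · exact Or.inr ⟨v, hv, hb⟩
    · rintro (⟨v, hv, _⟩ | ⟨v, hv, _⟩) <;> exact ⟨v, hv⟩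
  leaf := leaf
  sat φ π h := by
    rw [sat_rho] at h
    obtain ⟨v, hv, -⟩ := h
    exact ⟨v, hv⟩

end Pool.TQ
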