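import Pool.Agent.H74.TQ.Stmts

/-!
# Two queries: search with a key (module SOLVE)
-/

set_option autoImplicit false

namespace Pool.TQ

open TMLib Polynomial

namespace SOLVE

variable (c : Ctx)

/-- one step of the search -/
def stp (k : Form × List Bool) (φ : Form) (w : List Bool) : List Bool :=
  w ++ [c.alg (k, rho (φ, w ++ [true]))]

lemma srch_eq (k : Form × List Bool) (φ : Form) : c.srch k φ = (stp c k φ)^[sz φ] [] := rfl

lemma stp_len (k : Form × List Bool) (φ : Form) (j : ℕ) :
    ((stp c k φ)^[j] []).length = j := by
  induction j with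
  | zero => rfl
  | succ j ih => rw [Function.iterate_succ_apply']; simp [stp, ih]

lemma szb (l : List Bool) : sz l ≤ 1 + 4 * l.length := by
  induction l with
  | nil => simp
  | cons b l ih => have := sz_bool_le b; simp; omega

/-- the full state -/
def full (s : (Form × List Bool) × Form × List Bool) : (Form × List Bool) × Form × List Bool :=
  (s.1, s.2.1, stp c s.1 s.2.1 s.2.2)

lemma full_iter (k : Form × List Bool) (φ : Form) (j : ℕ) :
    (full c)^[j] (k, φ, []) = (k, φ, (stp c k φ)^[j] []) := by
  induction j with
  | zero => rfl
  | succ j ih => rw [Function.iterate_succ_apply', Function.iterate_succ_apply', ih]; rfl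

lemma ptime_srch (h : PTime rho) (ha : PTime c.alg) :
    PTime (fun p : (Form × List Bool) × Form => c.srch p.1 p.2) := by
  have h1 : PTime (fun s : (Form × List Bool) × Form × List Bool =>
      rho (s.2.1, s.2.2 ++ [true])) :=
    h.comp (f := fun s : (Form × List Bool) × Form × List Bool => (s.2.1, s.2.2 ++ [true]))
      (by fun_prop)
  have h2 : PTime (fun s : (Form × List Bool) × Form × List Bool =>
      c.alg (s.1, rho (s.2.1, s.2.2 ++ [true]))) :=
    ha.comp (f := fun s : (Form × List Bool) × Form × List Bool =>
      (s.1, rho (s.2.1, s.2.2 ++ [true]))) (by fun_prop)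
  have h3 : PTime (full c) := by
    unfold full stp
    fun_prop
  have h4 : PTime (fun p : (Form × List Bool) × Form => (full c)^[sz p.2] (p.1, p.2, [])) := by
    refine PTime.iter (f := full c)
      (s := fun p : (Form × List Bool) × Form => ((p.1, p.2, []) :
        (Form × List Bool) × Form × List Bool)) (n := fun p => sz p.2) h3 (by fun_prop)
      (by fun_prop) (h := fun p => 3 + 5 * sz p) ((PB.const 3).add ((PB.const 5).mul PB.sz_self)) ?_
    intro p i hi
    rw [full_iter]
    have h5 := szb ((stp c p.1 p.2)^[i] [])
    rw [stp_len] at h5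
    have e : sz p = 1 + sz p.1 + sz p.2 := sz_pair p
    simp only [sz_pair] at *
    omega
  refine (h4.snd.snd).congr fun p => ?_
  rw [full_iter, srch_eq]

end SOLVE

open SOLVE in
theorem solve : S_SOLVE := by
  intro R c ha
  obtain ⟨B, hB⟩ := R.ptime.exists_size_le
  refine ⟨fun n => B.eval (3 + n + 4 * (n + 1)), ?_, ?_, ?_, ?_⟩
  · fun_prop
  · have h1 := ptime_srch c R.ptime ha
    have hk : PTime Ctx.kdec := by
      unfold Ctx.kdec
      fun_prop
    have h2 : PTime (fun p : List Bool × Form => c.srch (Ctx.kdec p.1) p.2) :=
      h1.comp (f := fun p : List Bool × Form => (Ctx.kdec p.1, p.2))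
        (PTime.pair (hk.comp (PTime.fst PTime.id)) (PTime.snd PTime.id))
    exact R.ptimeChk.comp (f := fun p : List Bool × Form => (p.2, c.srch (Ctx.kdec p.1) p.2))
      (PTime.pair (PTime.snd PTime.id) h2)
  · intro κ φ h
    have h1 : chk (φ, c.srch (Ctx.kdec κ) φ) = true := h
    rw [← R.leaf φ _ (by rw [srch_eq, stp_len])] at h1
    exact R.sat _ _ h1
  · intro n m κ φ hm hS hn hφ
    show chk (φ, c.srch (Ctx.kdec κ) φ) = true
    rw [← R.leaf φ _ (by rw [srch_eq, stp_len]), srch_eq]
    have key : ∀ j ≤ sz φ, Sat (rho (φ, (stp c (Ctx.kdec κ) φ)^[j] [])) := by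
      intro j
      induction j with
      | zero => intro _; rw [Function.iterate_zero, id, R.nil]; exact hφ
      | succ j ih =>
        intro hj
        have h1 := ih (by omega)
        rw [Function.iterate_succ_apply']
        set w := (stp c (Ctx.kdec κ) φ)^[j] [] with hw
        have hwl : w.length = j := stp_len c _ φ j
        have hsz : sz (rho (φ, w ++ [true])) ≤ m := by
          refine (hB _).trans (le_trans (eval_mono B ?_) hm)
          have h5 := szb (w ++ [true])
          rw [List.length_append, List.length_singleton, hwl] at h5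
          simp only [sz_pair]
          omega
        have h2 := hS _ hsz
        unfold stp
        rw [R.split] at h1
        cases hb : c.alg (Ctx.kdec κ, rho (φ, w ++ [true])) with
        | true => exact h2.2 hb
        | false =>
          rcases h1 with h1 | h1
          · exact h1
          · rw [h2, hb] at h1
            exact absurd h1 (by simp)
    exact key _ le_rfl

end Pool.TQ
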